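import Mathlib

set_option autoImplicit false

namespace Pool.Agent.Results.MP_72c4d1_al.AlwaysAffine

/-- Affine permutations of `ZMod n`. -/
def IsAffine {n : ℕ} (σ : Equiv.Perm (ZMod n)) : Prop :=
  ∃ (a : (ZMod n)ˣ) (b : ZMod n), ∀ i, σ i = a * i + b

/-- The lifted dihedral group, as a set of permutations. -/
def Lifted (n : ℕ) : Set (Equiv.Perm (ZMod n)) :=
  {π | ∃ (u : ℤ) (b : ZMod n), IsUnit (u : ZMod n) ∧
    u ^ 2 ≡ 1 [ZMOD (∏ p ∈ n.primeFactors, p : ℕ)] ∧ ∀ i, π i = u * i + b}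

/-- The coset `σ D`. -/
def Coset {n : ℕ} (σ : Equiv.Perm (ZMod n)) : Set (Equiv.Perm (ZMod n)) :=
  {τ | ∃ h ∈ Lifted n, τ = σ * h}

theorem affine_of_mem {n : ℕ} {π : Equiv.Perm (ZMod n)} (h : π ∈ Lifted n) : IsAffine π := by
  obtain ⟨u, b, ⟨v, hv⟩, -, h⟩ := h
  exact ⟨v, b, by rw [hv]; exact h⟩

theorem affine_mul {n : ℕ} {π τ : Equiv.Perm (ZMod n)} (h : IsAffine π) (h' : IsAffine τ) :
    IsAffine (π * τ) := by
  obtain ⟨a, b, h⟩ := h
  obtain ⟨c, d, h'⟩ := h'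
  exact ⟨a * c, a * d + b, fun i => by rw [Equiv.Perm.mul_apply, h, h']; push_cast; ring⟩

theorem affine_inv {n : ℕ} {π : Equiv.Perm (ZMod n)} (h : IsAffine π) : IsAffine π⁻¹ := by
  obtain ⟨a, b, h⟩ := h
  refine ⟨a⁻¹, -(↑a⁻¹ * b), fun i => ?_⟩
  rw [Equiv.Perm.inv_eq_iff_eq, h]
  have := a.mul_inv
  linear_combination (b - i) * this

/-- Every coset of the lifted dihedral group that is closed under `N`-fold products is affine. -/
theorem result (n : ℕ) (hn5 : 5 ≤ n) (hn : Nat.gcd n 6 = 1) (σ : Equiv.Perm (ZMod n)) (N : ℕ)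
    (hN : 2 ≤ N)
    (hc : ∀ l : List (Equiv.Perm (ZMod n)), l.length = N → (∀ τ ∈ l, τ ∈ Coset σ) →
      l.prod ∈ Coset σ) :
    IsAffine σ := by
  obtain ⟨k, rfl⟩ : ∃ k, N = k + 2 := ⟨N - 2, by omega⟩
  have : NeZero n := ⟨by omega⟩
  have one_mem : (1 : Equiv.Perm (ZMod n)) ∈ Lifted n :=
    ⟨1, 0, by simp, by simp [Int.ModEq], by simp⟩
  have hσ : σ ∈ Coset σ := ⟨1, one_mem, (mul_one σ).symm⟩
  have key : ∀ h ∈ Lifted n, IsAffine (σ * h * σ ^ k) := by
    intro h hh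
    obtain ⟨g, hg, e⟩ := hc (σ :: (σ * h) :: List.replicate k σ) (by simp) (by
      intro τ hτ
      simp only [List.mem_cons, List.mem_replicate] at hτ
      rcases hτ with rfl | rfl | ⟨-, rfl⟩
      exacts [hσ, ⟨h, hh, rfl⟩, hσ])
    simp only [List.prod_cons, List.prod_replicate, mul_right_inj] at e
    rw [e]; exact affine_of_mem hg
  have conj : ∀ h ∈ Lifted n, IsAffine (σ * h * σ⁻¹) := by
    intro h hh
    have := affine_mul (key h hh) (affine_inv (key 1 one_mem))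
    convert this using 1
    group
  have h2 : IsUnit (2 : ZMod n) := by
    have : Nat.Coprime 2 n :=
      Nat.Coprime.coprime_dvd_left (by norm_num : 2 ∣ 6) (Nat.Coprime.symm hn)
    exact_mod_cast (ZMod.isUnit_iff_coprime 2 n).2 this
  obtain ⟨w, hw⟩ := h2
  obtain ⟨a, b, h1⟩ := conj (Equiv.neg _) ⟨-1, 0, by simp, by simp [Int.ModEq], by simp⟩
  obtain ⟨c, d, h3⟩ := conj (Equiv.addRight (↑w⁻¹ : ZMod n))
    ⟨1, ↑w⁻¹, by simp, by simp [Int.ModEq], by simp⟩
  have h1' : ∀ i, σ (-i) = a * σ i + b := fun i => by simpa using h1 (σ i)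
  have h3' : ∀ i, σ (i + ↑w⁻¹) = c * σ i + d := fun i => by simpa using h3 (σ i)
  have hw' : (↑w⁻¹ : ZMod n) + ↑w⁻¹ = 1 := by
    have := w.mul_inv
    rw [hw] at this
    linear_combination this
  obtain ⟨t, ht⟩ : ∃ t, ∀ i, σ (i + 1) = σ i + t := by
    have e1 : ∀ y : ZMod n, y = a * (a * y + b) + b := by
      intro y
      obtain ⟨i, rfl⟩ := σ.surjective y
      rw [← h1', ← h1', neg_neg]
    have e2 : ∀ y : ZMod n, y = a * (c * (a * (c * y + d) + b) + d) + b := by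
      intro y
      obtain ⟨i, rfl⟩ := σ.surjective y
      rw [← h3', ← h1', ← h3', ← h1']
      congr 1; ring
    have e3 : (c : ZMod n) * c = 1 := by
      linear_combination (e2 0 - e2 1) - (c : ZMod n) * c * (e1 0 - e1 1)
    refine ⟨c * d + d, fun i => ?_⟩
    rw [← hw', ← add_assoc, h3', h3']
    linear_combination σ i * e3
  have hnat : ∀ m : ℕ, σ m = t * m + σ 0 := by
    intro m
    induction m with
    | zero => simp
    | succ m ih => push_cast; rw [ht, ih]; ring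
  have hall : ∀ i, σ i = t * i + σ 0 := fun i => by
    have := hnat i.val
    rwa [ZMod.natCast_zmod_val] at this
  have hu : IsUnit t := by
    have := hall (σ⁻¹ (1 + σ 0))
    simp only [Equiv.Perm.coe_inv, Equiv.apply_symm_apply, add_left_inj] at this
    exact IsUnit.of_mul_eq_one _ this.symm
  obtain ⟨u, rfl⟩ := hu
  exact ⟨u, σ 0, hall⟩

end Pool.Agent.Results.MP_72c4d1_al.AlwaysAffine
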